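import Mathlib
import Pool.Agent.H63.CV.Main

set_option autoImplicit false

open Cardinal

namespace Pool.Agent.Results.MP_2f8bd9_al.CovMFamilies

/-- `cov(M)`: the least cardinal number of a family of meagre subsets of the Baire space
`ℕ → ℕ` whose union is the whole space. -/
noncomputable def covM : Cardinal.{0} :=
  sInf {c | ∃ A : Set (Set (ℕ → ℕ)), (∀ a ∈ A, IsMeagre a) ∧ ⋃₀ A = Set.univ ∧ #A = c}

/-- **Result.** Let `V` be a vector space of dimension `ℵ₀` over a countable field `F`.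

(1) For every family of at most `cov(M)` pairs `(U i, f i)`, where `U i` is a subspace with
`dim (V / U i) = ℵ₀` and `f i` is an element of `GL(U i)`, one and the same proper subgroup `H`
of `GL(V)` induces all the `f i`.

(2) Consequently, if `cov(M) = 2 ^ ℵ₀`, there is a proper subgroup `H` of `GL(V)` which induces
the full group `GL(U)` on every subspace `U` with `dim U = dim (V / U) = ℵ₀`. -/
theorem result (F : Type) [Field F] (hF : #F ≤ ℵ₀)
    (V : Type) [AddCommGroup V] [Module F V] (hV : Module.rank F V = ℵ₀) :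
    (∀ (I : Type), #I ≤ covM → ∀ (U : I → Submodule F V),
      (∀ i, Module.rank F (V ⧸ U i) = ℵ₀) → ∀ f : ∀ i, U i ≃ₗ[F] U i,
        ∃ H : Subgroup (V ≃ₗ[F] V), H ≠ ⊤ ∧ ∀ i, ∃ h ∈ H,
          (U i).map h.toLinearMap = U i ∧ ∀ x : U i, h (x : V) = (f i x : V)) ∧
    (covM = 2 ^ ℵ₀ →
      ∃ H : Subgroup (V ≃ₗ[F] V), H ≠ ⊤ ∧
        ∀ U : Submodule F V, Module.rank F U = ℵ₀ → Module.rank F (V ⧸ U) = ℵ₀ →
          ∀ f : U ≃ₗ[F] U, ∃ h ∈ H,
            U.map h.toLinearMap = U ∧ ∀ x : U, h (x : V) = (f x : V)) := by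
  have hmap : ∀ (U : Submodule F V) (f : U ≃ₗ[F] U) (h : V ≃ₗ[F] V),
      (∀ x : U, h (x : V) = (f x : V)) → U.map h.toLinearMap = U := by
    intro U f h hx
    apply le_antisymm
    · rintro _ ⟨u, hu, rfl⟩
      have := hx ⟨u, hu⟩
      simp only [LinearEquiv.coe_coe]
      rw [this]
      exact (f ⟨u, hu⟩).2
    · intro u hu
      refine ⟨(f.symm ⟨u, hu⟩ : V), (f.symm ⟨u, hu⟩).2, ?_⟩
      simp only [LinearEquiv.coe_coe]
      rw [hx, LinearEquiv.apply_symm_apply]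
  constructor
  · intro I hI U hU f
    obtain ⟨H, hH, hH2⟩ := Pool.Agent.H63.CV.family' hF hV hI
      (fun i => ⟨⟨U i, (hU i).ge⟩, f i⟩)
    refine ⟨H, hH, fun i => ?_⟩
    obtain ⟨h, hh, hx⟩ := hH2 i
    exact ⟨h, hh, hmap _ (f i) h hx, hx⟩
  · intro h2
    obtain ⟨H, hH, hH2⟩ := Pool.Agent.H63.CV.main' h2 hF hV
    refine ⟨H, hH, fun U _ hU f => ?_⟩
    obtain ⟨h, hh, hx⟩ := hH2 U hU f
    exact ⟨h, hh, hmap U f h hx, hx⟩

end Pool.Agent.Results.MP_2f8bd9_al.CovMFamilies
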