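import Mathlib
import Pool.Agent.H77.GLMain

set_option autoImplicit false

open Cardinal

namespace Pool.Agent.Results.MP_2f8bd9_al.LargeField

universe u v

/-- **Result.** Let `V` be a vector space of infinite dimension `κ` over a field `F` with more
than `κ` elements. If a subgroup `H` of `GL(V)` induces the full group `GL(U)` on every subspace
`U` with `dim U = dim V / U = κ`, then `H = GL(V)`. -/
theorem result (F : Type u) [Field F] (V : Type v) [AddCommGroup V] [Module F V]
    (hκ : ℵ₀ ≤ Module.rank F V)
    (hF : Cardinal.lift.{u} (Module.rank F V) < Cardinal.lift.{v} #F)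
    (H : Subgroup (V ≃ₗ[F] V))
    (hH : ∀ U : Submodule F V, Module.rank F U = Module.rank F V →
      Module.rank F (V ⧸ U) = Module.rank F V →
      ∀ f : U ≃ₗ[F] U, ∃ h ∈ H, U.map h.toLinearMap = U ∧ ∀ x : U, h (x : V) = (f x : V)) :
    H = ⊤ := by
  refine Pool.Agent.H77.GL.main hκ hF ?_
  intro U hU hUq f
  obtain ⟨h, hh, -, hx⟩ := hH U hU hUq f
  exact ⟨h, hh, hx⟩

end Pool.Agent.Results.MP_2f8bd9_al.LargeField
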