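import Pool.Agent.H63.GLF.Ind

/-!
# The positive answer to Q1 is not provable in ZFC

All definitions used by the statement are in `Pool/Agent/H90/Frc/Stmt.lean` (first-order formulas
of set theory, satisfaction, models of ZFC) and in `Pool/Agent/H63/GLF/Stmt.lean` (the failure of
Q1 for the vector space of countable dimension over the field with two elements, as a statement
about a structure `(M, E)` all of whose quantifiers range over `M`).

The model is a countable generic structure for the forcing whose conditions are the countable
subgroups of `GL(V)` in which every nonscalar element `g` is such that `g - c` has range of finite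
codimension for every scalar `c`; the union of the generic filter is the subgroup `H`.
-/

set_option autoImplicit false

namespace Pool.Agent.Results.MP_2f8bd9_al.NotProvable

open Pool.Agent.H90.Frc Pool.Agent.H63.GLF Ordinal

/-- There is a sentence `s` of the language of set theory which says, in every structure, that Q1
fails for `κ = ℵ₀` and the field with two elements, and this sentence holds in some model of
ZFC. -/
theorem result : ∃ s : Fml 0,
    (∀ (M : Type) (E : M → M → Prop), Sat E s Fin.elim0 ↔ Fails E) ∧
    ∃ (M : Type) (E : M → M → Prop), ZFC E ∧ Sat E s Fin.elim0 := by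
  obtain ⟨s, hs⟩ := dfn_fails (n := 0)
  refine ⟨s, fun M E => hs M E _, ?_⟩
  obtain ⟨g, -, hL, -⟩ := exists_gen_set (⊤ : Cnd) (n := 0) Fin.elim0
    (L := {onN Cnd ω, spN, grN}) (by simp)
  obtain ⟨w, hw⟩ := hL (onN Cnd ω) (by simp)
  obtain ⟨V, hV⟩ := hL spN (by simp)
  obtain ⟨H, hH⟩ := hL grN (by simp)
  exact ⟨g.M, g.E, g.zfc, (hs g.M g.E _).2 ⟨w, V, H, onN_isOmega hw, isFinSets_spN hw hV,
    isSubgroupGL_grN hV hH, proper_grN hV hH, fun U f hU hf => full_grN hw hV hH U f hU hf⟩⟩

end Pool.Agent.Results.MP_2f8bd9_al.NotProvable
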